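import Pool.Agent.H715.TW.Stm

/-!
# The cubic character modulo `7` (project TW, pieces CH3N and CH3, for MP_28f2cb_lc)
-/

namespace Pool.Agent.H331.TW

open Pool.Agent.H528R2 (Vge vge_nat val_add)
open Pool.Agent.H715.TW

/-- `wt3` depends only on the residue modulo `7` -/
lemma wt3_mod (s : ℕ) : wt3 s = wt3 (s % 7) := by
  unfold wt3
  simp only [Nat.mod_mod]

lemma wt3_mul (a b : ℕ) (ha : ¬ 7 ∣ a) (hb : ¬ 7 ∣ b) : wt3 (a * b) = wt3 a + wt3 b := by
  have ha' : a % 7 ≠ 0 := fun h => ha (Nat.dvd_of_mod_eq_zero h)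
  have hb' : b % 7 ≠ 0 := fun h => hb (Nat.dvd_of_mod_eq_zero h)
  have key : ∀ i < 7, ∀ j < 7, i ≠ 0 → j ≠ 0 → wt3 ((i * j) % 7) = wt3 i + wt3 j := by
    unfold wt3
    decide
  rw [wt3_mod (a * b), Nat.mul_mod,
    key _ (Nat.mod_lt _ (by norm_num)) _ (Nat.mod_lt _ (by norm_num)) ha' hb',
    ← wt3_mod a, ← wt3_mod b]

lemma wt3_abs (z : ℤ) (m : ℕ) (h : (7 : ℤ) ∣ z - m) : wt3 z.natAbs = wt3 m := by
  rw [wt3_mod z.natAbs, wt3_mod m]
  have hm : m % 7 < 7 := Nat.mod_lt _ (by norm_num)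
  have h1 : z.natAbs % 7 = m % 7 ∨ z.natAbs % 7 = (7 - m % 7) % 7 := by omega
  have key : ∀ i < 7, wt3 ((7 - i) % 7) = wt3 i := by
    unfold wt3
    decide
  rcases h1 with h1 | h1
  · rw [h1]
  · rw [h1, key _ hm]

lemma finite_supp (n : ℕ) (hn : n ≠ 0) :
    (Function.support fun s : {s : ℕ // s.Prime} =>
      wt3 s * ((padicValNat s n : ℕ) : ZMod 3)).Finite := by
  have h1 : (Set.Iic n).Finite := Set.finite_Iic n
  have h2 : ((Subtype.val : {s : ℕ // s.Prime} → ℕ) ⁻¹' Set.Iic n).Finite :=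
    h1.preimage (Subtype.val_injective.injOn)
  refine h2.subset fun s hs => ?_
  simp only [Function.mem_support, ne_eq] at hs
  have h3 : padicValNat s n ≠ 0 := by
    intro h
    apply hs
    rw [h]
    simp
  have h4 : (s : ℕ) ∣ n := by
    by_contra h
    exact h3 (padicValNat.eq_zero_of_not_dvd h)
  exact Nat.le_of_dvd (Nat.pos_of_ne_zero hn) h4

/-- CH3N -/
theorem ch3n : S_CH3N := by
  intro n
  induction n using Nat.recOnMul with
  | zero => intro h; exact absurd (dvd_zero 7) h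
  | one =>
    intro _
    simp only [padicValNat_one_right, Nat.cast_zero, mul_zero, finsum_zero]
    unfold wt3
    decide
  | prime p hp =>
    intro _
    rw [finsum_eq_single _ ⟨p, hp⟩]
    · have := Fact.mk hp
      simp
    · intro s hs
      have h1 : padicValNat s p = 0 := by
        apply padicValNat.eq_zero_of_not_dvd
        intro h
        exact hs (Subtype.ext ((Nat.prime_dvd_prime_iff_eq s.2 hp).1 h))
      rw [h1]
      simp
  | mul a b iha ihb =>
    intro h
    have ha : ¬ 7 ∣ a := fun h' => h (h'.mul_right b)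
    have hb : ¬ 7 ∣ b := fun h' => h (h'.mul_left a)
    have ha0 : a ≠ 0 := by rintro rfl; exact ha (dvd_zero 7)
    have hb0 : b ≠ 0 := by rintro rfl; exact hb (dvd_zero 7)
    rw [wt3_mul a b ha hb, ← iha ha, ← ihb hb,
      ← finsum_add_distrib (finite_supp a ha0) (finite_supp b hb0)]
    refine finsum_congr fun s => ?_
    have := Fact.mk s.2
    rw [padicValNat.mul ha0 hb0]
    push_cast
    ring

/-- CH3 -/
theorem ch3 (h : S_CH3N) : S_CH3 := by
  intro x c hc hx
  have h7 : Nat.Prime 7 := by norm_num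
  have := Fact.mk h7
  have hc0 : c ≠ 0 := by rintro rfl; exact hc (dvd_zero 7)
  have hcq : (c : ℚ) ≠ 0 := by exact_mod_cast hc0
  have hvc : padicValRat 7 (c : ℚ) = 0 := by
    have : padicValRat 7 (c : ℚ) = (padicValNat 7 c : ℤ) := padicValRat.of_nat
    rw [this, padicValNat.eq_zero_of_not_dvd hc]
    rfl
  obtain ⟨hx0, hvx⟩ := val_add (s := 7) (x := (c : ℚ)) (y := x - c) h7 hcq (by rw [hvc]; exact hx)
  rw [add_sub_cancel] at hx0 hvx
  rw [hvc] at hvx
  have hn0 : x.num ≠ 0 := Rat.num_ne_zero.2 hx0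
  -- numerator and denominator are prime to `7`
  have hcop := x.reduced
  have hval : (padicValNat 7 x.num.natAbs : ℤ) - padicValNat 7 x.den = 0 := by
    rw [← hvx, padicValRat_def]
    rfl
  have hden : ¬ 7 ∣ x.den := by
    intro hd
    have h1 : padicValNat 7 x.den ≠ 0 := (dvd_iff_padicValNat_ne_zero x.den_nz).1 hd
    have h2 : padicValNat 7 x.num.natAbs ≠ 0 := by omega
    have h3 : 7 ∣ x.num.natAbs := (dvd_iff_padicValNat_ne_zero (Int.natAbs_ne_zero.2 hn0)).2 h2
    have := Nat.dvd_gcd h3 hd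
    rw [hcop] at this
    omega
  have hnum : ¬ 7 ∣ x.num.natAbs := by
    intro hd
    have h1 : padicValNat 7 x.num.natAbs ≠ 0 :=
      (dvd_iff_padicValNat_ne_zero (Int.natAbs_ne_zero.2 hn0)).1 hd
    have h2 : padicValNat 7 x.den ≠ 0 := by omega
    exact hden ((dvd_iff_padicValNat_ne_zero x.den_nz).2 h2)
  -- the congruence
  have hdq : (x.den : ℚ) ≠ 0 := by exact_mod_cast x.den_nz
  have e1 : ((x.num - (c * x.den : ℕ) : ℤ) : ℚ) = (x - c) * x.den := by
    push_cast
    rw [sub_mul, Rat.mul_den_eq_num]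
  have hdvd : (7 : ℤ) ∣ x.num - (c * x.den : ℕ) := by
    by_cases hz : x.num - (c * x.den : ℕ) = 0
    · rw [hz]; exact dvd_zero _
    · have h1 : Vge 7 1 ((x.num - (c * x.den : ℕ) : ℤ) : ℚ) := by
        rw [e1]
        simpa using Vge.mul h7 hx (vge_nat 7 x.den)
      have h2 := h1.le (by exact_mod_cast hz)
      rw [padicValRat.of_int] at h2
      have h3 : padicValInt 7 (x.num - (c * x.den : ℕ)) ≠ 0 := by
        intro h4
        rw [h4] at h2
        norm_num at h2
      by_contra h4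
      exact h3 (padicValInt.eq_zero_of_not_dvd h4)
  have hw : wt3 x.num.natAbs = wt3 c + wt3 x.den := by
    rw [wt3_abs _ _ hdvd, wt3_mul _ _ hc hden]
  have hsum : ∀ s : {s : ℕ // s.Prime}, wt3 s * ((padicValRat s x : ℤ) : ZMod 3) =
      wt3 s * ((padicValNat s x.num.natAbs : ℕ) : ZMod 3) -
        wt3 s * ((padicValNat s x.den : ℕ) : ZMod 3) := by
    intro s
    have h1 : padicValRat s x = (padicValNat s x.num.natAbs : ℤ) - (padicValNat s x.den : ℤ) := by
      rw [padicValRat_def]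
      rfl
    rw [h1, Int.cast_sub, Int.cast_natCast, Int.cast_natCast]
    ring
  rw [finsum_congr hsum, finsum_sub_distrib (finite_supp _ (Int.natAbs_ne_zero.2 hn0))
    (finite_supp _ x.den_nz), h _ hnum, h _ hden, hw]
  ring

end Pool.Agent.H331.TW
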